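import Pool.Agent.Helper87.SL.Goals

set_option autoImplicit false

/-! MP_c13f7d_co, packet SL-SHF. -/

open Finset Pool.Agent.Helper87.SL

namespace Pool.Agent.Helper24.SL

theorem smp_shift {K : ℕ} (A : Finset ℕ) (I : Fin K → ℕ) (m q : ℕ) :
    smp A (fun j => I j + q) (m + q) = smp A I m := by
  unfold smp
  congr 3
  ext j
  simp only [mem_filter, mem_univ, true_and, Nat.add_sub_add_right, add_le_add_iff_right]

theorem gSHF : G_SHF := by
  intro K n q A I B hn hq h1 h2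
  set f : ℕ → ℝ := fun m => smp A I m - rep A m with hf
  set g : ℕ → ℝ := fun m => smp A (fun j => I j + q) m - rep A m with hg
  have hd : ∀ m, (rep A (m + q) : ℝ) - rep A m = f m - g (m + q) := by
    intro m
    simp only [hf, hg, smp_shift]
    ring
  have s1 : ∑ m ∈ Icc 1 n, f m ^ 2 ≤ B := by
    refine le_trans (sum_le_sum_of_subset_of_nonneg ?_ fun _ _ _ => sq_nonneg _) h1
    intro m hm
    rw [mem_Icc] at hm
    rw [mem_range]
    omega
  have s2 : ∑ m ∈ Icc 1 n, g (m + q) ^ 2 ≤ B := by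
    have e : ∑ m ∈ Icc 1 n, g (m + q) ^ 2 =
        ∑ m ∈ (Icc 1 n).map (addRightEmbedding q), g m ^ 2 := by
      rw [sum_map]
      rfl
    rw [e]
    refine le_trans (sum_le_sum_of_subset_of_nonneg ?_ fun _ _ _ => sq_nonneg _) h2
    intro m hm
    rw [mem_map] at hm
    obtain ⟨a, ha, rfl⟩ := hm
    rw [mem_Icc] at ha
    rw [mem_range]
    change a + q < 4 * n
    omega
  have s3 : ∑ m ∈ Icc 1 n, |(rep A (m + q) : ℝ) - rep A m| ^ 2 ≤ 4 * B := by
    calc ∑ m ∈ Icc 1 n, |(rep A (m + q) : ℝ) - rep A m| ^ 2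
        ≤ ∑ m ∈ Icc 1 n, (2 * f m ^ 2 + 2 * g (m + q) ^ 2) := by
          refine sum_le_sum fun m _ => ?_
          rw [sq_abs, hd]
          nlinarith [sq_nonneg (f m + g (m + q))]
      _ = 2 * ∑ m ∈ Icc 1 n, f m ^ 2 + 2 * ∑ m ∈ Icc 1 n, g (m + q) ^ 2 := by
          rw [sum_add_distrib, mul_sum, mul_sum]
      _ ≤ 4 * B := by linarith
  have s4 := sq_sum_le_card_mul_sum_sq (s := Icc 1 n)
    (f := fun m => |(rep A (m + q) : ℝ) - rep A m|)
  rw [Nat.card_Icc, Nat.add_sub_cancel] at s4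
  refine le_trans s4 ?_
  exact mul_le_mul_of_nonneg_left s3 (Nat.cast_nonneg n)

end Pool.Agent.Helper24.SL
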